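import Pool.Agent.Helper76.PP.Goals3
import Pool.Agent.Helper88.RS.DG1
import Pool.Agent.Helper84.RS.KUM

/-!
# Project PP: packet PP-BTRS, from primes of `F` to primes of `K`
-/

set_option autoImplicit false

namespace Pool.Agent.Helper5.PP

open NumberField Polynomial Module IsDedekindDomain
open Pool.Agent.Helper51.RP Pool.Agent.Helper42.RD Pool.Agent.Helper42.PP
open Pool.Agent.Helper38.RS (pz)

section

variable {F : Type} [Field F] [NumberField F]

theorem norm_pos' (v : HeightOneSpectrum (𝓞 F)) : 0 < Ideal.absNorm v.asIdeal := by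
  rw [Nat.pos_iff_ne_zero, Ne, Ideal.absNorm_eq_zero_iff]
  exact v.ne_bot

theorem norm_one_le (v : HeightOneSpectrum (𝓞 F)) : (1 : ℝ) ≤ (Ideal.absNorm v.asIdeal : ℝ) := by
  exact_mod_cast norm_pos' v

theorem nr_nonneg (v : HeightOneSpectrum (𝓞 F)) (s : ℝ) :
    0 ≤ (Ideal.absNorm v.asIdeal : ℝ) ^ (-s) := by positivity

/-- partial sums over a set of primes -/
theorem sum_le_pz (A : Set (HeightOneSpectrum (𝓞 F))) (s : ℝ) (hs : 1 < s)
    (T : Finset (HeightOneSpectrum (𝓞 F))) (hT : ∀ v ∈ T, v ∈ A) :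
    ∑ v ∈ T, (Ideal.absNorm v.asIdeal : ℝ) ^ (-s) ≤ pz A s := by
  classical
  have hsum : Summable fun v : A => (Ideal.absNorm v.1.asIdeal : ℝ) ^ (-s) :=
    (Pool.Agent.Helper84.RS.summable_norm F s hs).subtype A
  have h1 := hsum.sum_le_tsum (T.subtype (· ∈ A)) (fun v _ => nr_nonneg v.1 s)
  have h2 : ∑ v ∈ T.subtype (· ∈ A), (Ideal.absNorm v.1.asIdeal : ℝ) ^ (-s) =
      ∑ v ∈ T, (Ideal.absNorm v.asIdeal : ℝ) ^ (-s) := by
    have h3 := Finset.sum_subtype_of_mem
      (fun v : HeightOneSpectrum (𝓞 F) => (Ideal.absNorm v.asIdeal : ℝ) ^ (-s)) hT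
    exact h3
  rw [← h2]
  exact h1

end

theorem b_trs (h1 : Pool.Agent.Helper76.PP.B_FRE) (h2 : Pool.Agent.Helper42.PP.P_UPR) :
    Pool.Agent.Helper76.PP.B_TRS := by
  classical
  intro K F _ _ _ _ _ _ S hunr
  obtain ⟨C1, hC1⟩ := Pool.Agent.Helper88.RS.s_dg1 F
  obtain ⟨hfin, -, -, hbel, huniq, -, -⟩ := h2 0 K F S
  choose b hb using hbel
  refine ⟨2 * hfin.toFinset.card + 2 * C1, ?_⟩
  intro D V g hg hvan s hs1 hs2
  set a : HeightOneSpectrum (𝓞 F) → ℝ := fun W => (Ideal.absNorm W.asIdeal : ℝ) ^ (-s) with ha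
  set a' : HeightOneSpectrum (𝓞 K) → ℝ := fun v => (Ideal.absNorm v.asIdeal : ℝ) ^ (-s) with ha'
  have ha0 : ∀ W, 0 ≤ a W := fun W => nr_nonneg W s
  have ha'0 : ∀ v, 0 ≤ a' v := fun v => nr_nonneg v s
  have ha1 : ∀ W, a W ≤ 1 := fun W =>
    Real.rpow_le_one_of_one_le_of_nonpos (norm_one_le W) (by linarith)
  have hba : ∀ W, a W ≤ a' (b W) := by
    intro W
    have h3 := ((h1 K F (b W)).2.2 W (hb W)).1
    have h4 : (0 : ℝ) < (Ideal.absNorm (b W).asIdeal : ℝ) := by exact_mod_cast norm_pos' _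
    exact Real.rpow_le_rpow_of_nonpos h4 (by exact_mod_cast h3) (by linarith)
  have ha'1 : ∀ v, a' v ≤ 1 / (Ideal.absNorm v.asIdeal : ℝ) := by
    intro v
    have h3 : a' v ≤ (Ideal.absNorm v.asIdeal : ℝ) ^ (-1 : ℝ) :=
      Real.rpow_le_rpow_of_exponent_le (norm_one_le v) (by linarith)
    rwa [Real.rpow_neg_one, ← one_div] at h3
  have hcard : ∀ (T : Finset (HeightOneSpectrum (𝓞 F))) (v : HeightOneSpectrum (𝓞 K)),
      ((T.filter fun W => b W = v).card : ℝ) ≤ finrank K F := by
    intro T v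
    obtain ⟨h3, h4, -⟩ := h1 K F v
    have h5 : T.filter (fun W => b W = v) ⊆ h3.toFinset := by
      intro W hW
      rw [Set.Finite.mem_toFinset]
      have h6 := (Finset.mem_filter.1 hW).2
      show Above W v
      rw [← h6]
      exact hb W
    have h6 := Finset.card_le_card h5
    rw [← Set.ncard_eq_toFinset_card _ h3] at h6
    exact_mod_cast h6.trans h4
  -- the pointwise bound
  have hpt : ∀ W, g W * a W ≤ (if W ∈ up F S then 2 else 0) +
      (if ¬ (Ideal.absNorm W.asIdeal).Prime then 2 * a W else 0) +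
      (if b W ∈ D then 2 * (1 / (Ideal.absNorm (b W).asIdeal : ℝ)) else 0) +
      (if b W ∈ V then 2 * a' (b W) else 0) := by
    intro W
    have hgW := hg W
    have e0 : g W * a W ≤ 2 * a W := mul_le_mul_of_nonneg_right hgW.2 (ha0 W)
    have i1 : (0 : ℝ) ≤ (if W ∈ up F S then 2 else 0) := by split_ifs <;> norm_num
    have i2 : (0 : ℝ) ≤ (if ¬ (Ideal.absNorm W.asIdeal).Prime then 2 * a W else 0) := by
      split_ifs
      · exact le_rfl
      · exact mul_nonneg (by norm_num) (ha0 W)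
    have i3 : (0 : ℝ) ≤ (if b W ∈ D then 2 * (1 / (Ideal.absNorm (b W).asIdeal : ℝ)) else 0) := by
      split_ifs
      · positivity
      · exact le_rfl
    have i4 : (0 : ℝ) ≤ (if b W ∈ V then 2 * a' (b W) else 0) := by
      split_ifs
      · exact mul_nonneg (by norm_num) (ha'0 _)
      · exact le_rfl
    by_cases c1 : b W ∈ S
    · have : W ∈ up F S := ⟨b W, c1, hb W⟩
      rw [if_pos this]
      have := ha1 W
      linarith
    · by_cases c2 : FreeP K W
      · by_cases c3 : b W ∈ D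
        · rw [if_pos c3]
          have := ha'1 (b W)
          have := hba W
          linarith
        · by_cases c4 : b W ∈ V
          · rw [if_pos c4]
            have := hba W
            linarith
          · have h0 := hvan W (b W) (hb W) c2 c1 c3 c4
            rw [h0, zero_mul]
            linarith
      · have h3 := ((h1 K F (b W)).2.2 W (hb W)).2 (hunr (b W) c1 W (hb W)) c2
        rw [if_pos h3]
        linarith
  refine Real.tsum_le_of_sum_le (fun W => mul_nonneg (hg W).1 (ha0 W)) fun T => ?_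
  have s1 : ∑ W ∈ T, (if W ∈ up F S then (2 : ℝ) else 0) ≤ 2 * hfin.toFinset.card := by
    rw [← Finset.sum_filter, Finset.sum_const, nsmul_eq_mul, mul_comm]
    have h3 : T.filter (fun W => W ∈ up F S) ⊆ hfin.toFinset := by
      intro W hW
      rw [Set.Finite.mem_toFinset]
      exact (Finset.mem_filter.1 hW).2
    have h4 : ((T.filter (fun W => W ∈ up F S)).card : ℝ) ≤ hfin.toFinset.card := by
      exact_mod_cast Finset.card_le_card h3
    linarith
  have s2 : ∑ W ∈ T, (if ¬ (Ideal.absNorm W.asIdeal).Prime then 2 * a W else 0) ≤ 2 * C1 := by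
    rw [← Finset.sum_filter, ← Finset.mul_sum]
    have h3 := sum_le_pz {v : HeightOneSpectrum (𝓞 F) | ¬ (Ideal.absNorm v.asIdeal).Prime} s hs1
      (T.filter fun W => ¬ (Ideal.absNorm W.asIdeal).Prime)
      (fun v hv => (Finset.mem_filter.1 hv).2)
    have h4 := hC1 s hs1 hs2
    have h5 : ∑ W ∈ T.filter (fun W => ¬ (Ideal.absNorm W.asIdeal).Prime), a W ≤ C1 :=
      h3.trans h4
    linarith
  have s3 : ∑ W ∈ T, (if b W ∈ D then 2 * (1 / (Ideal.absNorm (b W).asIdeal : ℝ)) else 0) ≤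
      2 * finrank K F * ∑ v ∈ D, (1 : ℝ) / Ideal.absNorm v.asIdeal := by
    rw [← Finset.sum_filter]
    have h3 : ∀ W ∈ T.filter (fun W => b W ∈ D), b W ∈ D := fun W hW =>
      (Finset.mem_filter.1 hW).2
    rw [← Finset.sum_fiberwise_of_maps_to h3, Finset.mul_sum]
    refine Finset.sum_le_sum fun v hv => ?_
    have h4 : ∑ W ∈ (T.filter (fun W => b W ∈ D)).filter (fun W => b W = v),
        2 * (1 / (Ideal.absNorm (b W).asIdeal : ℝ)) =
        ((T.filter (fun W => b W ∈ D)).filter (fun W => b W = v)).card *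
          (2 * (1 / (Ideal.absNorm v.asIdeal : ℝ))) := by
      rw [← nsmul_eq_mul, ← Finset.sum_const]
      refine Finset.sum_congr rfl fun W hW => ?_
      rw [(Finset.mem_filter.1 hW).2]
    rw [h4]
    have h5 := hcard (T.filter (fun W => b W ∈ D)) v
    have h6 : (0 : ℝ) ≤ 2 * (1 / (Ideal.absNorm v.asIdeal : ℝ)) := by positivity
    have h7 := mul_le_mul_of_nonneg_right h5 h6
    linarith
  have s4 : ∑ W ∈ T, (if b W ∈ V then 2 * a' (b W) else 0) ≤ 2 * finrank K F * pz V s := by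
    rw [← Finset.sum_filter]
    set T' := T.filter (fun W => b W ∈ V) with hT'
    have h3 : ∀ W ∈ T', b W ∈ T'.image b := fun W hW => Finset.mem_image_of_mem b hW
    rw [← Finset.sum_fiberwise_of_maps_to h3]
    have h4 := sum_le_pz V s hs1 (T'.image b) (by
      intro v hv
      obtain ⟨W, hW, rfl⟩ := Finset.mem_image.1 hv
      exact (Finset.mem_filter.1 hW).2)
    have h5 : ∑ v ∈ T'.image b, ∑ W ∈ T'.filter (fun W => b W = v), 2 * a' (b W) ≤
        ∑ v ∈ T'.image b, 2 * finrank K F * a' v := by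
      refine Finset.sum_le_sum fun v hv => ?_
      have h6 : ∑ W ∈ T'.filter (fun W => b W = v), 2 * a' (b W) =
          (T'.filter (fun W => b W = v)).card * (2 * a' v) := by
        rw [← nsmul_eq_mul, ← Finset.sum_const]
        refine Finset.sum_congr rfl fun W hW => ?_
        rw [(Finset.mem_filter.1 hW).2]
      rw [h6]
      have h7 := mul_le_mul_of_nonneg_right (hcard T' v)
        (show (0 : ℝ) ≤ 2 * a' v from mul_nonneg (by norm_num) (ha'0 v))
      linarith
    refine h5.trans ?_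
    rw [← Finset.mul_sum]
    exact mul_le_mul_of_nonneg_left h4 (by positivity)
  calc ∑ W ∈ T, g W * a W ≤ ∑ W ∈ T, ((if W ∈ up F S then 2 else 0) +
      (if ¬ (Ideal.absNorm W.asIdeal).Prime then 2 * a W else 0) +
      (if b W ∈ D then 2 * (1 / (Ideal.absNorm (b W).asIdeal : ℝ)) else 0) +
      (if b W ∈ V then 2 * a' (b W) else 0)) := Finset.sum_le_sum fun W _ => hpt W
    _ ≤ _ := by
      rw [Finset.sum_add_distrib, Finset.sum_add_distrib, Finset.sum_add_distrib]
      linarith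

end Pool.Agent.Helper5.PP
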